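import Pool.Agent.Helper75.OE.GoalsA2

/-!
Packet OE-CH1 (MP_fc0446_an).
-/

open Pool.Agent.Helper73.OE Pool.Agent.Helper75.OE

namespace Pool.Agent.Helper56.OE

theorem run_set {H S L : Type} [Group H] (X : Sys H S L) (O : Edges H S) (f : Cfg H S L) :
    ∀ (M : ℕ) (v : H) (p : S) (y : L), ¬ X.Long O f M v p y →
      ∃ A : Finset H, A.card ≤ M ∧ ∀ n z, z ∉ A → X.flipP O f z n v p y = 1 := by
  classical
  intro M
  induction M with
  | zero =>
    intro v p y h
    exact absurd trivial h
  | succ M ih =>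
    intro v p y h
    by_cases ho : O v ((f v).symm y)
    · have h' : ¬ X.Long O f M (X.nb v ((f v).symm y)) (X.bar ((f v).symm y))
          (X.tau (f v p)) := fun hl => h ⟨ho, hl⟩
      obtain ⟨A, hA, hf⟩ := ih _ _ _ h'
      refine ⟨insert v A, (Finset.card_insert_le _ _).trans (Nat.succ_le_succ hA), ?_⟩
      intro n z hz
      rw [Finset.mem_insert, not_or] at hz
      cases n with
      | zero => simp only [Sys.flipP]; rw [if_neg hz.1]
      | succ n =>
        simp only [Sys.flipP]
        rw [if_neg hz.1, if_pos ho]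
        exact hf n z hz.2
    · refine ⟨{v}, by simp, ?_⟩
      intro n z hz
      rw [Finset.mem_singleton] at hz
      cases n with
      | zero => simp only [Sys.flipP]; rw [if_neg hz]
      | succ n =>
        simp only [Sys.flipP]
        rw [if_neg hz, if_neg ho]

theorem arm_set {H S L : Type} [Group H] (X : Sys H S L) (O : Edges H S) (f : Cfg H S L)
    {M : ℕ} {u : H} {t : S} {y : L} (h : X.ArmOk O M f u t y) :
    ∃ A : Finset H, A.card ≤ M ∧ ∀ z, z ∉ A → X.armP O f z u t y = 1 := by
  classical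
  by_cases ho : O u t
  · obtain ⟨A, hA, hf⟩ := run_set X O f M _ _ _ (h ho)
    refine ⟨A, hA, fun z hz => ?_⟩
    unfold Sys.armP
    rw [if_pos ho]
    exact hf _ z hz
  · refine ⟨∅, by simp, fun z _ => ?_⟩
    unfold Sys.armP
    rw [if_neg ho]

theorem tri_set {H S L : Type} [Group H] (X : Sys H S L) (O : Edges H S) (f : Cfg H S L)
    (M : ℕ) (k : L) : ∀ (m : ℕ) (v : H) (p : S) (y : L), X.Av O M f m v p y k →
      ∃ A : Finset H, A.card ≤ m + 1 + 2 * M ∧ ∀ z, z ∉ A → X.triP O f z m v p y k = 1 := by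
  classical
  intro m
  induction m with
  | zero =>
    rintro v p y ⟨_, _, h1, h2⟩
    obtain ⟨A1, c1, e1⟩ := arm_set X O f h1
    obtain ⟨A2, c2, e2⟩ := arm_set X O f h2
    refine ⟨insert v (A1 ∪ A2), ?_, ?_⟩
    · have a := Finset.card_insert_le v (A1 ∪ A2)
      have b := Finset.card_union_le A1 A2
      omega
    · intro z hz
      rw [Finset.mem_insert, not_or, Finset.mem_union, not_or] at hz
      simp only [Sys.triP]
      rw [if_neg hz.1, e1 z hz.2.1, e2 z hz.2.2]
      rfl
  | succ m ih =>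
    rintro v p y ⟨ho, h⟩
    obtain ⟨A, c, e⟩ := ih _ _ _ h
    refine ⟨insert v A, ?_, ?_⟩
    · have a := Finset.card_insert_le v A
      omega
    · intro z hz
      rw [Finset.mem_insert, not_or] at hz
      simp only [Sys.triP]
      rw [if_neg hz.1]
      exact e z hz.2

theorem ch1 : A_CH1 := by
  classical
  intro H S L _ _ X P O i v p y f hi
  have hav : X.Av O P.M f (2 * (i.1 : ℕ) + 1) v p y i.2 := by
    unfold Sys.AS at hi
    exact (Finset.mem_filter.1 hi).2
  obtain ⟨A, c, e⟩ := tri_set X O f P.M i.2 _ v p y hav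
  refine ⟨A, ?_, ?_⟩
  · have := i.1.2
    omega
  · intro z hz
    unfold Sys.TRi Sys.TR
    rw [e z hz]
    exact Equiv.trans_refl _

end Pool.Agent.Helper56.OE
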