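import Pool.Agent.Helper78.OE.GoalsC1

/-!
Packet OE-LOCB (MP_fc0446_an).
-/

open Pool.Agent.Helper73.OE Pool.Agent.Helper78.OE

namespace Pool.Agent.Helper56.OE

variable {H S L : Type} [Group H] (X : Sys H S L)

theorem dist_nb_left_le (v z : H) (s : S) : X.dist (X.nb v s) z ≤ X.dist v z + 1 := by
  have h1 := X.dist_nb_le z v s
  rw [X.dist_comm (X.nb v s) z, X.dist_comm v z]
  exact h1

theorem dist_left_le_nb (v z : H) (s : S) : X.dist v z ≤ X.dist (X.nb v s) z + 1 := by
  have h1 := X.dist_le_nb z v s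
  rw [X.dist_comm (X.nb v s) z, X.dist_comm v z]
  exact h1

theorem agr_nb {O O' : Edges H S} {f f' : Cfg H S L} {v : H} {r : ℕ}
    (h : Agr X (X.ball v (r + 1)) O O' f f') (s : S) :
    Agr X (X.ball (X.nb v s) r) O O' f f' := by
  refine h.mono X ?_
  intro z hz
  have hz' : X.dist (X.nb v s) z ≤ r := hz
  have := dist_left_le_nb X v z s
  show X.dist v z ≤ r + 1
  omega

theorem agr_self {O O' : Edges H S} {f f' : Cfg H S L} {v : H} {r : ℕ}
    (h : Agr X (X.ball v r) O O' f f') : f v = f' v := by
  apply h.1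
  show X.dist v v ≤ r
  rw [X.dist_self]
  omega

theorem agr_edge {O O' : Edges H S} {f f' : Cfg H S L} {v : H} {r : ℕ}
    (h : Agr X (X.ball v (r + 1)) O O' f f') (s : S) : O v s ↔ O' v s := by
  apply h.2
  · show X.dist v v ≤ r + 1
    rw [X.dist_self]
    omega
  · show X.dist v (X.nb v s) ≤ r + 1
    rw [X.dist_nb_self]
    omega

theorem long_congr {O O' : Edges H S} {f f' : Cfg H S L} :
    ∀ (r : ℕ) (v : H), Agr X (X.ball v r) O O' f f' → ∀ (p : S) (y : L),
      (X.Long O f r v p y ↔ X.Long O' f' r v p y) := by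
  intro r
  induction r with
  | zero => intro v _ p y; exact Iff.rfl
  | succ r ih =>
    intro v h p y
    have e1 := agr_self X h
    simp only [Sys.Long]
    rw [e1]
    exact and_congr (agr_edge X h _) (ih _ (agr_nb X h _) _ _)

theorem armOk_congr {O O' : Edges H S} {f f' : Cfg H S L} {v : H} {M : ℕ}
    (h : Agr X (X.ball v (M + 1)) O O' f f') (t : S) (y : L) :
    X.ArmOk O M f v t y ↔ X.ArmOk O' M f' v t y := by
  unfold Sys.ArmOk
  exact imp_congr (agr_edge X h t) (not_congr (long_congr X M _ (agr_nb X h t) _ _))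

theorem av_congr {O O' : Edges H S} {f f' : Cfg H S L} :
    ∀ (m M : ℕ) (v : H), Agr X (X.ball v (m + M + 1)) O O' f f' → ∀ (p : S) (y k : L),
      (X.Av O M f m v p y k ↔ X.Av O' M f' m v p y k) := by
  intro m M
  induction m with
  | zero =>
    intro v h p y k
    have h' : Agr X (X.ball v (M + 1)) O O' f f' := by
      have e : 0 + M + 1 = M + 1 := by omega
      rw [e] at h
      exact h
    have e1 := agr_self X h'
    simp only [Sys.Av]
    rw [e1]
    exact and_congr Iff.rfl (and_congr Iff.rfl (and_congr (armOk_congr X h' _ _)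
      (armOk_congr X h' _ _)))
  | succ m ih =>
    intro v h p y k
    have h' : Agr X (X.ball v ((m + M + 1) + 1)) O O' f f' := by
      have e : m + 1 + M + 1 = (m + M + 1) + 1 := by omega
      rw [e] at h
      exact h
    have e1 := agr_self X h'
    simp only [Sys.Av]
    rw [e1]
    exact and_congr (agr_edge X h' _) (ih _ (agr_nb X h' _) _ _ _)

theorem flipP_congr {O O' : Edges H S} {f f' : Cfg H S L} (z : H) :
    ∀ (n : ℕ) (v : H), Agr X (X.ball v (n + 1)) O O' f f' → ∀ (p : S) (y : L),
      X.flipP O f z n v p y = X.flipP O' f' z n v p y := by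
  intro n
  induction n with
  | zero =>
    intro v h p y
    have e1 := agr_self X h
    simp only [Sys.flipP]
    rw [e1]
  | succ n ih =>
    intro v h p y
    have e1 := agr_self X h
    simp only [Sys.flipP]
    rw [e1]
    by_cases hz : z = v
    · rw [if_pos hz, if_pos hz]
    · rw [if_neg hz, if_neg hz]
      by_cases ho : O v ((f' v).symm y)
      · rw [if_pos ho, if_pos ((agr_edge X h _).1 ho)]
        exact ih _ (agr_nb X h _) _ _
      · rw [if_neg ho, if_neg (fun h' => ho ((agr_edge X h _).2 h'))]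

theorem armP_congr {O O' : Edges H S} {f f' : Cfg H S L} (z v : H) {r : ℕ}
    (hr : X.dist v z + 3 ≤ r) (h : Agr X (X.ball v r) O O' f f') (t : S) (y : L) :
    X.armP O f z v t y = X.armP O' f' z v t y := by
  obtain ⟨r, rfl⟩ : ∃ r', r = r' + 1 := ⟨r - 1, by omega⟩
  unfold Sys.armP
  by_cases ho : O v t
  · rw [if_pos ho, if_pos ((agr_edge X h t).1 ho)]
    apply flipP_congr
    refine (agr_nb X h t).mono X (X.ball_mono _ ?_)
    have := dist_nb_left_le X v z t
    omega
  · rw [if_neg ho, if_neg (fun h' => ho ((agr_edge X h t).2 h'))]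

theorem triP_congr {O O' : Edges H S} {f f' : Cfg H S L} (z : H) :
    ∀ (m : ℕ) (v : H) (r : ℕ), 2 * m + 3 + X.dist v z ≤ r → Agr X (X.ball v r) O O' f f' →
      ∀ (p : S) (y k : L), X.triP O f z m v p y k = X.triP O' f' z m v p y k := by
  intro m
  induction m with
  | zero =>
    intro v r hr h p y k
    have e1 := agr_self X h
    simp only [Sys.triP]
    rw [e1]
    by_cases hz : z = v
    · rw [if_pos hz, if_pos hz]
    · rw [if_neg hz, if_neg hz]
      rw [armP_congr X z v (by omega) h, armP_congr X z v (by omega) h]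
  | succ m ih =>
    intro v r hr h p y k
    obtain ⟨r, rfl⟩ : ∃ r', r = r' + 1 := ⟨r - 1, by omega⟩
    have e1 := agr_self X h
    simp only [Sys.triP]
    rw [e1]
    by_cases hz : z = v
    · rw [if_pos hz, if_pos hz]
    · rw [if_neg hz, if_neg hz]
      refine ih _ r ?_ (agr_nb X h _) _ _ _
      have := dist_nb_left_le X v z ((f' v).symm y)
      omega

theorem locb [Fintype L] : LOCB X := by
  intro O O' f f' v r h p y k
  have hav : ∀ m M : ℕ, m + M + 1 ≤ r → ∀ k, (X.Av O M f m v p y k ↔ X.Av O' M f' m v p y k) :=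
    fun m M hm k => av_congr X m M v (h.mono X (X.ball_mono _ hm)) p y k
  refine ⟨long_congr X r v h p y, fun m M hm => hav m M hm k, ?_, ?_, ?_⟩
  · intro P hP
    unfold Sys.AS
    ext i
    simp only [Finset.mem_filter, Finset.mem_univ, true_and]
    apply hav
    have := i.1.2
    omega
  · intro n z hn
    exact flipP_congr X z n v (h.mono X (X.ball_mono _ hn)) p y
  · intro m z hm
    unfold Sys.TR
    rw [triP_congr X z m v r hm h, h.1 z (show X.dist v z ≤ r by omega)]

end Pool.Agent.Helper56.OE
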