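import Pool.Agent.Helper78.OE.GoalsC2

/-!
Packet OE-SEC2 (MP_fc0446_an).
-/

open MeasureTheory Pool.Agent.Helper73.OE Pool.Agent.Helper78.OE
open scoped ENNReal

namespace Pool.Agent.Helper56.OE

variable {H S L : Type} [Group H] (X : Sys H S L) [Fintype S] [Fintype L]

theorem pE_mono {ε : ℝ} (hε : 0 ≤ ε) (M : ℕ) : pE M ε ≤ pE (M + 1) ε := by
  unfold pE
  apply tsub_le_tsub_left
  have h1 : sg ε ≤ 1 := by
    unfold sg
    rw [ENNReal.ofReal_le_one]
    linarith
  exact pow_le_pow_right_of_le_one' h1 (Nat.le_succ _)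

theorem meas_NA {ε : ℝ} {μ : Measure (St H S L)} (C : Ctx X ε μ) (M m : ℕ) (v : H) (p : S) (y : L) :
    Measurable fun w : St H S L => NA X M ε m v p y w := by
  unfold NA
  exact Finset.measurable_sum _ fun k _ => meas_av X C.meas C.locb ε M m v p y k

theorem armOk_succ {O : Edges H S} {f : Cfg H S L} {v : H} {t : S} {k : L} {M : ℕ}
    (ho : O v t) :
    X.ArmOk O (M + 1) f v t k ↔
      X.ArmOk O M f (X.nb v t) ((f (X.nb v t)).symm (X.tau k)) (f (X.nb v t) (X.bar t)) := by
  unfold Sys.ArmOk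
  simp only [Sys.Long]
  constructor
  · intro h h1 h2
    exact h ho ⟨h1, h2⟩
  · intro h _ h2
    exact h h2.1 h2.2

theorem NA_succ {ε : ℝ} {σ : S ≃ L} {v : H} {p : S} {y : L} {M m : ℕ} {w : St H S L}
    (hw : w.1 v = σ) :
    NA X M ε (m + 1) v p y w = ind (Om X ε w v (σ.symm y)) *
      NA X M ε m (X.nb v (σ.symm y)) (X.bar (σ.symm y)) (X.tau (σ p)) w := by
  unfold NA
  rw [Finset.mul_sum]
  refine Finset.sum_congr rfl fun k _ => ?_
  rw [← ind_and]
  apply ind_congr
  simp only [Sys.Av]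
  rw [hw]

/-- The contribution of the side label `k`. -/
theorem sec2_term {ε : ℝ} {μ : Measure (St H S L)} (C : Ctx X ε μ) (h : ARM X ε μ)
    (h1 : SEC1 X ε μ) (M' d : ℕ) (v : H) (p : S) (y : L) (G : St H S L → ℝ≥0∞)
    (hG : Test X v p y G) (σ : S ≃ L) (hσ : σ p ≠ y) (k : L) (hk1 : k ≠ σ p) (hk2 : k ≠ y) :
    ∫⁻ w, G w * (ind (X.Av (Om X ε w) (M' + 1) w.1 0 v p y k) *
      NA X (M' + 1) ε (d + 2) v p y w) * ind (w.1 v = σ) ∂μ ≤
      sg ε ^ (d + 2) * (((Fintype.card L - 2 : ℕ) : ℝ≥0∞) * pE (M' + 1) ε ^ 4) *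
        ∫⁻ w, G w * ind (w.1 v = σ) ∂μ := by
  have htp : σ.symm y ≠ p := by
    intro e
    apply hσ
    rw [← e, Equiv.apply_symm_apply]
  have hrp : σ.symm k ≠ p := by
    intro e
    apply hk1
    rw [← e, Equiv.apply_symm_apply]
  have htr : σ.symm y ≠ σ.symm k := fun e => hk2 (σ.symm.injective e).symm
  -- the functions
  have hK0 : Test X v p y (fun w => G w * ind (w.1 v = σ)) := hG.mul_eq X σ
  have hvan : ∀ (s : S) (l : L), σ s ≠ l → ∀ w : St H S L, w.1 v s = l →
      G w * ind (w.1 v = σ) = 0 := by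
    intro s l hsl w hw
    by_cases hv : w.1 v = σ
    · exact absurd (by rw [← hw, hv]) hsl
    · rw [ind_false hv, mul_zero]
  have hdt : X.DepOn (X.Sd v (σ.symm y)) (fun w => G w * ind (w.1 v = σ)) :=
    DepOn.mono X hK0.dep (X.Past_subset htp)
  have hdr : X.DepOn (X.Sd v (σ.symm k)) (fun w => G w * ind (w.1 v = σ)) :=
    DepOn.mono X hK0.dep (X.Past_subset hrp)
  have hv1 : ∀ w : St H S L, w.1 v (σ.symm k) = σ p → G w * ind (w.1 v = σ) = 0 :=
    hvan _ _ (by rw [Equiv.apply_symm_apply]; exact hk1)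
  have hv2 : ∀ w : St H S L, w.1 v (σ.symm y) = σ p → G w * ind (w.1 v = σ) = 0 :=
    hvan _ _ (by rw [Equiv.apply_symm_apply]; exact fun e => hσ e.symm)
  have hm1 : Measurable fun w : St H S L => G w * ind (w.1 v = σ) *
      ind (X.ArmOk (Om X ε w) (M' + 1) w.1 v (σ.symm k) (σ p)) :=
    hK0.meas.mul (meas_arm X C.meas C.locb ε (M' + 1) v (σ.symm k) (σ p))
  have hd1 : X.DepOn (X.Sd v (σ.symm y)) (fun w : St H S L => G w * ind (w.1 v = σ) *
      ind (X.ArmOk (Om X ε w) (M' + 1) w.1 v (σ.symm k) (σ p))) :=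
    dep_arm X (X.Past_subset htr) ε (M' + 1) hdt hv1
  have hT : Test X (X.nb v (σ.symm y)) (X.bar (σ.symm y)) (X.tau (σ p))
      (fun w : St H S L => G w * ind (w.1 v = σ) *
        ind (X.ArmOk (Om X ε w) (M' + 1) w.1 v (σ.symm k) (σ p)) *
        ind (Om X ε w v (σ.symm y))) := by
    refine test_next X C.meas ε hm1 hd1 ?_ ?_
    · exact fun w => mul_le_one' (hK0.le_one w) (ind_le_one _)
    · intro w hw
      rw [hv2 w hw, zero_mul]
  have hS := h1 (M' + 1) M' d _ _ _ (X.tau k) _ hT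
    (fun e => hk1 (tau_inj X e)) (by
      intro w hw
      by_cases ho : Om X ε w v (σ.symm y)
      · have h3 : w.1 (X.nb v (σ.symm y)) (X.bar (σ.symm y)) = X.tau (w.1 v (σ.symm y)) := ho.2
        rw [h3] at hw
        have h4 := tau_inj X hw
        rw [hvan (σ.symm y) k (by rw [Equiv.apply_symm_apply]; exact fun e => hk2 e.symm) w h4,
          zero_mul, zero_mul]
      · rw [ind_false ho, mul_zero])
  rw [C.strip v (σ.symm y) _ hm1 hd1,
    h (M' + 1) v (σ.symm k) (σ p) _ hK0.meas hdr hK0.le_one hv1] at hS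
  have hpt : ∀ w : St H S L, G w * (ind (X.Av (Om X ε w) (M' + 1) w.1 0 v p y k) *
      NA X (M' + 1) ε (d + 2) v p y w) * ind (w.1 v = σ) =
      (fun w : St H S L => G w * ind (w.1 v = σ) *
        ind (X.ArmOk (Om X ε w) (M' + 1) w.1 v (σ.symm k) (σ p)) *
        ind (Om X ε w v (σ.symm y))) w *
      (ind (X.ArmOk (Om X ε w) M' w.1 (X.nb v (σ.symm y))
        ((w.1 (X.nb v (σ.symm y))).symm (X.tau k))
        (w.1 (X.nb v (σ.symm y)) (X.bar (σ.symm y)))) *
      NA X (M' + 1) ε (d + 1) (X.nb v (σ.symm y)) (X.bar (σ.symm y)) (X.tau (σ p)) w) := by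
    intro w
    by_cases hw : w.1 v = σ
    · rw [NA_succ X hw]
      by_cases ho : Om X ε w v (σ.symm y)
      · have e1 : (X.Av (Om X ε w) (M' + 1) w.1 0 v p y k) ↔
            (X.ArmOk (Om X ε w) M' w.1 (X.nb v (σ.symm y))
              ((w.1 (X.nb v (σ.symm y))).symm (X.tau k))
              (w.1 (X.nb v (σ.symm y)) (X.bar (σ.symm y))) ∧
            X.ArmOk (Om X ε w) (M' + 1) w.1 v (σ.symm k) (σ p)) := by
          simp only [Sys.Av]
          rw [hw, armOk_succ X ho]
          constructor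
          · rintro ⟨_, _, a, b⟩
            exact ⟨a, b⟩
          · rintro ⟨a, b⟩
            exact ⟨hk1, hk2, a, b⟩
        rw [ind_congr e1, ind_and]
        show _ = G w * ind (w.1 v = σ) *
          ind (X.ArmOk (Om X ε w) (M' + 1) w.1 v (σ.symm k) (σ p)) *
          ind (Om X ε w v (σ.symm y)) * _
        rw [ind_true ho]
        ring
      · show _ = G w * ind (w.1 v = σ) *
          ind (X.ArmOk (Om X ε w) (M' + 1) w.1 v (σ.symm k) (σ p)) *
          ind (Om X ε w v (σ.symm y)) * _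
        rw [ind_false ho]
        simp
    · show _ = G w * ind (w.1 v = σ) *
          ind (X.ArmOk (Om X ε w) (M' + 1) w.1 v (σ.symm k) (σ p)) *
          ind (Om X ε w v (σ.symm y)) * _
      rw [ind_false hw]
      simp
  rw [lintegral_congr hpt]
  refine hS.trans ?_
  calc sg ε ^ (d + 1) * (((Fintype.card L - 2 : ℕ) : ℝ≥0∞) * pE (M' + 1) ε ^ 2) * pE M' ε *
        (sg ε * (pE (M' + 1) ε * ∫⁻ w, G w * ind (w.1 v = σ) ∂μ))
      ≤ sg ε ^ (d + 1) * (((Fintype.card L - 2 : ℕ) : ℝ≥0∞) * pE (M' + 1) ε ^ 2) *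
        pE (M' + 1) ε * (sg ε * (pE (M' + 1) ε * ∫⁻ w, G w * ind (w.1 v = σ) ∂μ)) := by
        gcongr
        exact pE_mono C.nonneg M'
    _ = _ := by ring

theorem card_two {ι : Type} [Fintype ι] [DecidableEq ι] {a b : ι} (hab : a ≠ b) :
    (Finset.univ.filter fun k : ι => ¬ (k = a ∨ k = b)).card = Fintype.card ι - 2 := by
  have h : (Finset.univ.filter fun k : ι => ¬ (k = a ∨ k = b)) =
      (Finset.univ.erase a).erase b := by
    ext k
    simp only [Finset.mem_filter, Finset.mem_univ, true_and, Finset.mem_erase, and_true]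
    tauto
  rw [h, Finset.card_erase_of_mem, Finset.card_erase_of_mem (Finset.mem_univ _)]
  · rw [Finset.card_univ]
    omega
  · exact Finset.mem_erase.2 ⟨hab.symm, Finset.mem_univ _⟩

theorem sec2 {ε : ℝ} {μ : Measure (St H S L)} (C : Ctx X ε μ) (h : ARM X ε μ)
    (h1 : SEC1 X ε μ) : SEC2 X ε μ := by
  classical
  intro M' d v p y G hG
  have hmF : Measurable fun w : St H S L => G w * (NA X (M' + 1) ε 0 v p y w *
      NA X (M' + 1) ε (d + 2) v p y w) :=
    hG.meas.mul ((meas_NA X C _ _ _ _ _).mul (meas_NA X C _ _ _ _ _))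
  refine le_of_split μ v hmF hG.meas _ ?_
  intro σ
  by_cases hσ : σ p = y
  · have hz : ∀ w : St H S L, G w * (NA X (M' + 1) ε 0 v p y w *
      NA X (M' + 1) ε (d + 2) v p y w) * ind (w.1 v = σ) = 0 := by
      intro w
      by_cases hw : w.1 v = σ
      · rw [hG.van w (by rw [hw]; exact hσ), zero_mul, zero_mul]
      · rw [ind_false hw, mul_zero]
    rw [lintegral_congr hz, lintegral_zero]
    exact zero_le
  · have hsum : ∀ w : St H S L, G w * (NA X (M' + 1) ε 0 v p y w *
        NA X (M' + 1) ε (d + 2) v p y w) * ind (w.1 v = σ) =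
        ∑ k : L, G w * (ind (X.Av (Om X ε w) (M' + 1) w.1 0 v p y k) *
          NA X (M' + 1) ε (d + 2) v p y w) * ind (w.1 v = σ) := by
      intro w
      rw [← Finset.sum_mul, ← Finset.mul_sum, ← Finset.sum_mul]
      rfl
    have hmk : ∀ k : L, Measurable fun w : St H S L =>
        G w * (ind (X.Av (Om X ε w) (M' + 1) w.1 0 v p y k) *
          NA X (M' + 1) ε (d + 2) v p y w) * ind (w.1 v = σ) := fun k =>
      (hG.meas.mul ((meas_av X C.meas C.locb ε _ _ _ _ _ _).mul (meas_NA X C _ _ _ _ _))).mul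
        (meas_eq v σ)
    rw [lintegral_congr hsum, lintegral_finset_sum _ fun k _ => hmk k]
    have hterm : ∀ k : L, ∫⁻ w, G w * (ind (X.Av (Om X ε w) (M' + 1) w.1 0 v p y k) *
        NA X (M' + 1) ε (d + 2) v p y w) * ind (w.1 v = σ) ∂μ ≤
        if k = σ p ∨ k = y then 0 else
          sg ε ^ (d + 2) * (((Fintype.card L - 2 : ℕ) : ℝ≥0∞) * pE (M' + 1) ε ^ 4) *
            ∫⁻ w, G w * ind (w.1 v = σ) ∂μ := by
      intro k
      by_cases hk : k = σ p ∨ k = y
      · rw [if_pos hk]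
        have hz : ∀ w : St H S L, G w * (ind (X.Av (Om X ε w) (M' + 1) w.1 0 v p y k) *
            NA X (M' + 1) ε (d + 2) v p y w) * ind (w.1 v = σ) = 0 := by
          intro w
          by_cases hw : w.1 v = σ
          · have hna : ¬ X.Av (Om X ε w) (M' + 1) w.1 0 v p y k := by
              simp only [Sys.Av]
              rw [hw]
              rintro ⟨a, b, _⟩
              rcases hk with hk | hk
              · exact a hk
              · exact b hk
            rw [ind_false hna, zero_mul, mul_zero, zero_mul]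
          · rw [ind_false hw, mul_zero]
        rw [lintegral_congr hz, lintegral_zero]
      · rw [if_neg hk]
        push Not at hk
        exact sec2_term X C h h1 M' d v p y G hG σ hσ k hk.1 hk.2
    refine (Finset.sum_le_sum fun k _ => hterm k).trans ?_
    rw [Finset.sum_ite, Finset.sum_const_zero, zero_add, Finset.sum_const, card_two hσ,
      nsmul_eq_mul]
    apply le_of_eq
    ring

end Pool.Agent.Helper56.OE
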