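import Pool.Agent.Helper75.OE.GoalsB

/-!
Packet OE-EXC (MP_fc0446_an).
-/

open Pool.Agent.Helper73.OE Pool.Agent.Helper75.OE

namespace Pool.Agent.Helper56.OE

theorem run_between {H S L : Type} [Group H] (X : Sys H S L)
    (hmed : ∀ o x z c, X.dist o x + X.dist x z = X.dist o z →
      X.dist o x + X.dist x c = X.dist o c ∨ X.dist c x + X.dist x z = X.dist c z)
    (O : Edges H S) (f : Cfg H S L) (v : H) (p : S) (y : L) (b : H)
    (hb : X.OnRun O f v p y b) :
    ∀ z, X.dist v z + X.dist z b = X.dist v b → X.OnRun O f v p y z := by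
  induction hb with
  | here v p y =>
    intro z hz
    rw [X.dist_self] at hz
    have h1 : X.dist v z = 0 := by omega
    have h2 := (X.dist_eq_zero v z).1 h1
    subst h2
    exact Sys.OnRun.here _ _ _
  | step v p y b ho hr ih =>
    intro z hz
    rcases hmed v z b (X.nb v ((f v).symm y)) hz with h | h
    · rw [X.dist_nb_self] at h
      by_cases h1 : X.dist v z = 0
      · have h2 := (X.dist_eq_zero v z).1 h1
        subst h2
        exact Sys.OnRun.here _ _ _
      · have h3 : X.dist z (X.nb v ((f v).symm y)) = 0 := by omega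
        have h2 := (X.dist_eq_zero _ _).1 h3
        rw [h2]
        exact Sys.OnRun.step _ _ _ _ ho (Sys.OnRun.here _ _ _)
    · exact Sys.OnRun.step _ _ _ _ ho (ih z h)

theorem run_subset {H S L : Type} [Group H] (X : Sys H S L)
    (O : Edges H S) (f : Cfg H S L) (Λ : Set H) (hΛ : ∀ z r, O z r → z ∈ Λ ∧ X.nb z r ∈ Λ)
    (v : H) (p : S) (y : L) (b : H) (hb : X.OnRun O f v p y b) : b = v ∨ b ∈ Λ := by
  induction hb with
  | here v p y => exact Or.inl rfl
  | step v p y b ho hr ih =>
    rcases ih with h | h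
    · rw [h]
      exact Or.inr (hΛ _ _ ho).2
    · exact Or.inr h

theorem exc (h1 : B_MED) (h2 : B_CVX) : B_EXC := by
  intro H S L _ X P O f e
  obtain ⟨_, _, _, hmed⟩ := h1 H S L X
  obtain ⟨hball, hunion, _⟩ := h2 H S L X
  have hrad : 1 ≤ rad P := by
    unfold rad
    omega
  have hrun : Cvx X {z | X.OnRun O f (X.nb e.1 e.2) (X.bar e.2) (X.tau (f e.1 e.2)) z} := by
    intro a ha b hb z hz
    rcases hmed a z b (X.nb e.1 e.2) hz with h | h
    · refine run_between X hmed O f _ _ _ a ha z ?_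
      rw [X.dist_comm a z, X.dist_comm z (X.nb e.1 e.2), X.dist_comm a (X.nb e.1 e.2)] at h
      omega
    · exact run_between X hmed O f _ _ _ b hb z h
  have hself : X.dist (X.nb e.1 e.2) (X.nb e.1 e.2) = 0 := X.dist_self _
  constructor
  · have h23 : Cvx X (X.ball (X.nb e.1 e.2) (rad P) ∪
        {z | X.OnRun O f (X.nb e.1 e.2) (X.bar e.2) (X.tau (f e.1 e.2)) z}) :=
      hunion _ _ (X.nb e.1 e.2) (hball _ _) hrun
        (by show X.dist (X.nb e.1 e.2) (X.nb e.1 e.2) ≤ rad P; omega)
        (Sys.OnRun.here _ _ _)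
    have h123 := hunion (X.ball e.1 (rad P)) _ e.1 (hball _ _) h23
      (by show X.dist e.1 e.1 ≤ rad P; rw [X.dist_self]; omega)
      (Or.inl (by
        show X.dist (X.nb e.1 e.2) e.1 ≤ rad P
        rw [X.dist_comm, X.dist_nb_self]
        exact hrad))
    exact h123
  · intro _ Λ hfin hΛ
    have hsub : Ex X P O f e ⊆ X.ball e.1 (rad P) ∪ (X.ball (X.nb e.1 e.2) (rad P) ∪
        ({X.nb e.1 e.2} ∪ Λ)) := by
      rintro z (h | h | h)
      · exact Or.inl h
      · exact Or.inr (Or.inl h)
      · exact Or.inr (Or.inr (run_subset X O f Λ hΛ _ _ _ z h))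
    exact ((X.finite_ball _ _).union ((X.finite_ball _ _).union
      ((Set.finite_singleton _).union hfin))).subset hsub

end Pool.Agent.Helper56.OE
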