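import Pool.Agent.Helper79.OE.GoalsD

/-!
Packet OE-YRT (MP_fc0446_an).
-/

open MeasureTheory Pool.Agent.Helper73.OE Pool.Agent.Helper78.OE Pool.Agent.Helper79.OE
open scoped ENNReal

namespace Pool.Agent.Helper56.OE

variable {H S L : Type} [Group H]

theorem measSet_Cl (X : Sys H S L) (ε : ℝ) (v : H) (s : S) :
    MeasurableSet {w : Cfg H S L × Env H S | X.Cl ε w.2 v s} := by
  have h : ∀ e : H × S, Measurable fun w : Cfg H S L × Env H S => ((w.2 e).1 : ℝ) ^ 2 := by
    intro e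
    have h1 : Measurable fun w : Cfg H S L × Env H S => w.2 e :=
      (measurable_pi_apply e).comp measurable_snd
    exact (measurable_subtype_coe.comp (measurable_fst.comp h1)).pow_const 2
  have e : {w : Cfg H S L × Env H S | X.Cl ε w.2 v s} =
      {w : Cfg H S L × Env H S | ((w.2 (v, s)).1 : ℝ) ^ 2 ≤ ε} ∩
        {w : Cfg H S L × Env H S | ((w.2 (X.rev (v, s))).1 : ℝ) ^ 2 ≤ ε} := rfl
  rw [e]
  exact (measurableSet_le (h _) measurable_const).inter (measurableSet_le (h _) measurable_const)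

theorem measSet_Si (X : Sys H S L) (ε ε' : ℝ) (v : H) (s : S) :
    MeasurableSet {w : Cfg H S L × Env H S | X.Si ε ε' w.2 v s} :=
  (measSet_Cl X ε v s).inter (measSet_Cl X ε' v s).compl

open Classical in
theorem meas_term [Fintype S] [Fintype L] (hM : D_YME) (X : Sys H S L) (ε ε' : ℝ)
    (t ζ κ : ℝ≥0∞) (h : ℕ) (o : H) :
    Measurable fun w : Cfg H S L × Env H S =>
      ∏ c : S, (1 + (if X.Si ε ε' w.2 o c then κ else 1) *
        yy X ε ε' t ζ κ h (X.nb o c) (X.bar c) (X.e0 c) w) := by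
  refine Finset.measurable_prod _ fun c _ => ?_
  refine measurable_const.add (Measurable.mul ?_ (hM X ε ε' t ζ κ h _ _ _).1)
  exact Measurable.ite (measSet_Si X ε ε' o c) measurable_const measurable_const

theorem yrt : D_YRT := by
  classical
  intro hM hP H S L _ _ _ X ε ε' t ζ κ μ _ hs hκ hB o
  have hm : ∀ h : ℕ, Measurable fun w : Cfg H S L × Env H S => t * (ζ *
      ∏ c : S, (1 + (if X.Si ε ε' w.2 o c then κ else 1) *
        yy X ε ε' t ζ κ h (X.nb o c) (X.bar c) (X.e0 c) w)) := fun h =>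
    ((meas_term hM X ε ε' t ζ κ h o).const_mul ζ).const_mul t
  have hyr : ∀ w, yr X ε ε' t ζ κ o w = ⨆ h : ℕ, t * (ζ *
      ∏ c : S, (1 + (if X.Si ε ε' w.2 o c then κ else 1) *
        yy X ε ε' t ζ κ h (X.nb o c) (X.bar c) (X.e0 c) w)) := by
    intro w
    unfold yr Sys.YR
    congr! 6
  have hmono : Monotone fun (h : ℕ) (w : Cfg H S L × Env H S) => t * (ζ *
      ∏ c : S, (1 + (if X.Si ε ε' w.2 o c then κ else 1) *
        yy X ε ε' t ζ κ h (X.nb o c) (X.bar c) (X.e0 c) w)) := by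
    refine monotone_nat_of_le_succ fun h w => ?_
    show t * (ζ * ∏ c : S, (1 + (if X.Si ε ε' w.2 o c then κ else 1) *
        yy X ε ε' t ζ κ h (X.nb o c) (X.bar c) (X.e0 c) w)) ≤
      t * (ζ * ∏ c : S, (1 + (if X.Si ε ε' w.2 o c then κ else 1) *
        yy X ε ε' t ζ κ (h + 1) (X.nb o c) (X.bar c) (X.e0 c) w))
    gcongr with c _
    exact (hM X ε ε' t ζ κ h _ _ _).2.2 w
  have hfun : yr X ε ε' t ζ κ o = fun w => ⨆ h : ℕ, t * (ζ *
      ∏ c : S, (1 + (if X.Si ε ε' w.2 o c then κ else 1) *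
        yy X ε ε' t ζ κ h (X.nb o c) (X.bar c) (X.e0 c) w)) := funext hyr
  rw [hfun]
  refine ⟨Measurable.iSup hm, ?_⟩
  rw [lintegral_iSup hm hmono]
  refine iSup_le fun h => ?_
  rw [lintegral_const_mul _ ((meas_term hM X ε ε' t ζ κ h o).const_mul ζ),
    lintegral_const_mul _ (meas_term hM X ε ε' t ζ κ h o)]
  gcongr
  have h2 := hP hM X ε ε' t ζ κ μ hs hκ h (hB h) o Finset.univ (fun c => X.e0 c)
    (fun _ => 1) measurable_const (fun c _ w w' _ _ => rfl)
  simp only [one_mul, lintegral_const, measure_univ, mul_one, Finset.card_univ] at h2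
  convert h2 using 3

end Pool.Agent.Helper56.OE
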